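import Mathlib

set_option autoImplicit false

/-!
# Curvilinear polygons, `H^{1/2}` and the eigenvalues of the Neumann-Poincare operator

The plane is `ℂ`.
-/

open MeasureTheory Set Filter Topology

namespace Pool.Agent.TH268.NPDefs

/-- A curvilinear polygon: a positively oriented Jordan curve in the plane `ℂ`, given as a cyclic
sequence of `n` regular arcs `arc i : [0,1] → ℂ` of class `C³`, each ending where the next one
begins.  The curve is simple, and it is positively oriented: it winds once, counterclockwise, around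
some point, so its interior lies to the left. -/
structure CurvPolygon where
  /-- number of arcs -/
  n : ℕ
  /-- there is at least one arc -/
  pos : NeZero n
  /-- the arcs, parametrised by `[0,1]` -/
  arc : ZMod n → ℝ → ℂ
  smooth : ∀ i, ContDiffOn ℝ 3 (arc i) (Icc 0 1)
  regular : ∀ i, ∀ t ∈ Icc (0 : ℝ) 1, derivWithin (arc i) (Icc 0 1) t ≠ 0
  closed : ∀ i, arc i 1 = arc (i + 1) 0
  simple : ∀ i j, ∀ s ∈ Ico (0 : ℝ) 1, ∀ t ∈ Ico (0 : ℝ) 1, arc i s = arc j t → i = j ∧ s = t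
  oriented : ∃ z₀ : ℂ, (∀ i, ∀ t ∈ Icc (0 : ℝ) 1, arc i t ≠ z₀) ∧
    ∑ i, ∫ t in (0 : ℝ)..1, derivWithin (arc i) (Icc 0 1) t / (arc i t - z₀) =
      2 * Real.pi * Complex.I

attribute [instance] CurvPolygon.pos

namespace CurvPolygon

/-- the velocity of the `i`-th arc (one-sided at the end points) -/
noncomputable def vel (Γ : CurvPolygon) (i : ZMod Γ.n) (t : ℝ) : ℂ :=
  derivWithin (Γ.arc i) (Icc 0 1) t

/-- The interior angle at the vertex `arc i 1 = arc (i+1) 0`.  The turning angle of the tangent at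
this vertex is the argument of the quotient of the outgoing and the incoming velocity, and the
interior lies to the left. -/
noncomputable def interiorAngle (Γ : CurvPolygon) (i : ZMod Γ.n) : ℝ :=
  Real.pi - Complex.arg (Γ.vel (i + 1) 0 / Γ.vel i 1)

/-- the arc length measure of the curve, as a measure on the plane -/
noncomputable def arcLength (Γ : CurvPolygon) : Measure ℂ :=
  ∑ i, Measure.map (Γ.arc i) ((volume.restrict (Icc (0 : ℝ) 1)).withDensity (fun t => ‖Γ.vel i t‖ₑ))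

/-- `f` belongs to `H^{1/2}(Γ)`: it is square integrable with respect to arc length and has finite
Gagliardo energy `∫∫ |f(x) - f(y)|² / |x - y|² ds(x) ds(y)` -/
def MemHHalf (Γ : CurvPolygon) (f : ℂ → ℂ) : Prop :=
  MemLp f 2 Γ.arcLength ∧
    ∫⁻ x, ∫⁻ y, ‖f x - f y‖ₑ ^ 2 / ‖x - y‖ₑ ^ 2 ∂Γ.arcLength ∂Γ.arcLength < ⊤

/-- The truncated double layer potential
`(1/2π) ∫_{y ∈ Γ, |y - x| > ε} ⟨y - x, n(y)⟩ / |y - x|² f(y) ds(y)`.
For a positively oriented curve `n(y) ds(y) = -i y'(t) dt` is the outward normal times arc length. -/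
noncomputable def trunc (Γ : CurvPolygon) (ε : ℝ) (f : ℂ → ℂ) (x : ℂ) : ℂ :=
  1 / (2 * Real.pi) * ∑ i, ∫ t in {t | t ∈ Icc (0 : ℝ) 1 ∧ ε < ‖Γ.arc i t - x‖},
    ((inner ℝ (Γ.arc i t - x) (-Complex.I * Γ.vel i t) / ‖Γ.arc i t - x‖ ^ 2 : ℝ) : ℂ) *
      f (Γ.arc i t)

/-- The eigenvalues of the Neumann-Poincare operator on `H^{1/2}(Γ)`: the numbers `lam` for which
there is a nonzero `f ∈ H^{1/2}(Γ)` with `K f = lam f`, where `K f` is the principal value
`lim_{ε → 0} trunc ε f`. -/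
def eigenvalues (Γ : CurvPolygon) : Set ℂ :=
  {lam | ∃ f : ℂ → ℂ, Γ.MemHHalf f ∧ ¬ f =ᵐ[Γ.arcLength] 0 ∧
    ∀ᵐ x ∂Γ.arcLength, Tendsto (fun ε => Γ.trunc ε f x) (𝓝[>] 0) (𝓝 (lam * f x))}

end CurvPolygon

end Pool.Agent.TH268.NPDefs
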